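import Mathlib

set_option autoImplicit false

/-!
# Trades in real Hadamard matrices and rectangular trades

For a real Hadamard matrix `H` of order `n`, every trade in `H` is a symmetric difference of
rectangular trades in `H` if and only if `n ≤ 2`.
-/

namespace Pool.Agent.Results.MP_78a590_co.RectTrades

open Finset

/-- `T` is a trade in `H`: some Hadamard matrix `H' ≠ H` differs from `H` exactly at the
positions in `T`. -/
def IsTrade {n : ℕ} (H : Matrix (Fin n) (Fin n) ℤ) (T : Finset (Fin n × Fin n)) : Prop :=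
  ∃ H' : Matrix (Fin n) (Fin n) ℤ, H'.IsHadamard ∧ H' ≠ H ∧
    ∀ i j, (i, j) ∈ T ↔ H' i j ≠ H i j

/-- A rectangular trade: a trade of the form `A × B`. -/
def IsRectTrade {n : ℕ} (H : Matrix (Fin n) (Fin n) ℤ) (T : Finset (Fin n × Fin n)) : Prop :=
  IsTrade H T ∧ ∃ A B : Finset (Fin n), T = A ×ˢ B

/-- `T` is the symmetric difference of finitely many rectangular trades in `H`. -/
def IsRectCombination {n : ℕ} (H : Matrix (Fin n) (Fin n) ℤ)
    (T : Finset (Fin n × Fin n)) : Prop :=
  ∃ L : List (Finset (Fin n × Fin n)), (∀ R ∈ L, IsRectTrade H R) ∧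
    T = L.foldr (fun R S => symmDiff R S) ∅

theorem pm {n : ℕ} {H : Matrix (Fin n) (Fin n) ℤ} (hH : H.IsHadamard) (i j : Fin n) :
    H i j = 1 ∨ H i j = -1 :=
  Unitary.mem_iff_eq_one_or_eq_neg_one.mp (hH.apply_mem i j)

theorem col_orth {n : ℕ} {H : Matrix (Fin n) (Fin n) ℤ} (hH : H.IsHadamard) {c d : Fin n}
    (hcd : c ≠ d) : ∑ i, H i c * H i d = 0 := by
  simpa [Matrix.mul_apply, hcd] using congr_fun (congr_fun hH.conjTranspose_mul c) d

theorem row_orth {n : ℕ} {H : Matrix (Fin n) (Fin n) ℤ} (hH : H.IsHadamard) {c d : Fin n}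
    (hcd : c ≠ d) : ∑ j, H c j * H d j = 0 := by
  simpa [Matrix.mul_apply, hcd] using congr_fun (congr_fun hH.mul_conjTranspose c) d

/-- The linear functional attached to three columns `c, d, e`, modulo two. -/
def L {n : ℕ} (H : Matrix (Fin n) (Fin n) ℤ) (c d e : Fin n)
    (T : Finset (Fin n × Fin n)) : ZMod 2 :=
  ∑ i, ((if (i, c) ∈ T ∧ H i d ≠ H i e then 1 else 0) +
    (if (i, d) ∈ T ∧ H i c ≠ H i e then 1 else 0) +
    (if (i, e) ∈ T ∧ H i c ≠ H i d then 1 else 0))

theorem L_symmDiff {n : ℕ} (H : Matrix (Fin n) (Fin n) ℤ) (c d e : Fin n)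
    (S T : Finset (Fin n × Fin n)) : L H c d e (symmDiff S T) = L H c d e S + L H c d e T := by
  unfold L
  rw [← sum_add_distrib]
  refine sum_congr rfl fun i _ => ?_
  have key : ∀ (x : Fin n × Fin n) (P : Prop) [Decidable P],
      (if x ∈ symmDiff S T ∧ P then (1 : ZMod 2) else 0) =
      (if x ∈ S ∧ P then 1 else 0) + (if x ∈ T ∧ P then 1 else 0) := by
    intro x P _
    by_cases hP : P <;> by_cases h1 : x ∈ S <;> by_cases h2 : x ∈ T <;>
      simp [Finset.mem_symmDiff, hP, h1, h2]
    decide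
  rw [key, key, key]
  ring

theorem L_foldr {n : ℕ} (H : Matrix (Fin n) (Fin n) ℤ) (c d e : Fin n)
    (l : List (Finset (Fin n × Fin n))) (h : ∀ R ∈ l, L H c d e R = 0) :
    L H c d e (l.foldr (fun R S => symmDiff R S) ∅) = 0 := by
  induction l with
  | nil => simp [L]
  | cons R l ih =>
    rw [List.foldr_cons, L_symmDiff, h R (by simp), ih (fun R' hR' => h R' (by simp [hR'])),
      add_zero]

/-- In a rectangular trade `A × B`, two columns, one inside and one outside `B`, are orthogonal
on `A`. -/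
theorem rect_orth {n : ℕ} {H : Matrix (Fin n) (Fin n) ℤ} (hH : H.IsHadamard)
    {A B : Finset (Fin n)} (hT : IsTrade H (A ×ˢ B)) {c d : Fin n} (hc : c ∈ B) (hd : d ∉ B) :
    ∑ i ∈ A, H i c * H i d = 0 := by
  obtain ⟨H', hH', _, hdiff⟩ := hT
  have hcd : c ≠ d := fun h => hd (h ▸ hc)
  have h1 := col_orth hH hcd
  have h2 := col_orth hH' hcd
  have e1 : ∀ i ∈ A, H' i c * H' i d = -(H i c * H i d) := by
    intro i hi
    have hc' : H' i c ≠ H i c := (hdiff i c).mp (by simp [hi, hc])
    have hd' : H' i d = H i d := by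
      by_contra hne
      exact hd (by simpa [hi] using (hdiff i d).mpr hne)
    rw [hd']
    have : H' i c = -H i c := by
      rcases pm hH' i c with h | h <;> rcases pm hH i c with h' | h' <;> simp_all
    rw [this]; ring
  have e2 : ∀ i ∉ A, H' i c * H' i d = H i c * H i d := by
    intro i hi
    have hc' : H' i c = H i c := by
      by_contra hne
      exact hi (by simpa [hc] using (hdiff i c).mpr hne)
    have hd' : H' i d = H i d := by
      by_contra hne
      exact hd (by simpa using ((mem_product.mp ((hdiff i d).mpr hne)).2))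
    rw [hc', hd']
  have s1 : ∑ i, H i c * H i d = ∑ i ∈ A, H i c * H i d + ∑ i ∈ Aᶜ, H i c * H i d :=
    (sum_add_sum_compl A _).symm
  have s2 : ∑ i, H' i c * H' i d = ∑ i ∈ A, H' i c * H' i d + ∑ i ∈ Aᶜ, H' i c * H' i d :=
    (sum_add_sum_compl A _).symm
  have s3 : ∑ i ∈ A, H' i c * H' i d = -∑ i ∈ A, H i c * H i d := by
    rw [← sum_neg_distrib]; exact sum_congr rfl e1
  have s4 : ∑ i ∈ Aᶜ, H' i c * H' i d = ∑ i ∈ Aᶜ, H i c * H i d :=
    sum_congr rfl fun i hi => e2 i (by simpa using hi)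
  rw [s3, s4] at s2
  linarith

/-- The number of rows in `A` where two columns differ, as an integer. -/
theorem count_ne {n : ℕ} {H : Matrix (Fin n) (Fin n) ℤ} (hH : H.IsHadamard)
    (A : Finset (Fin n)) (c d : Fin n) :
    2 * (∑ i ∈ A, (if H i c ≠ H i d then (1 : ℤ) else 0)) + ∑ i ∈ A, H i c * H i d =
      A.card := by
  rw [mul_sum, ← sum_add_distrib, card_eq_sum_ones]
  push_cast
  refine sum_congr rfl fun i _ => ?_
  rcases pm hH i c with h | h <;> rcases pm hH i d with h' | h' <;> simp [h, h']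

theorem tri_mod {n : ℕ} {H : Matrix (Fin n) (Fin n) ℤ} (hH : H.IsHadamard)
    (c d e i : Fin n) :
    (if H i d ≠ H i e then (1 : ZMod 2) else 0) + (if H i c ≠ H i e then 1 else 0) +
      (if H i c ≠ H i d then 1 else 0) = 0 := by
  rcases pm hH i c with h | h <;> rcases pm hH i d with h' | h' <;>
    rcases pm hH i e with h'' | h'' <;> simp [h, h', h''] <;> decide

/-- If columns `d`, `e` are both separated from `c` by `B`, the count vanishes mod 2. -/
theorem sep_zero {n : ℕ} {H : Matrix (Fin n) (Fin n) ℤ} (hH : H.IsHadamard)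
    (A : Finset (Fin n)) (c d e : Fin n)
    (h1 : ∑ i ∈ A, H i c * H i d = 0) (h2 : ∑ i ∈ A, H i c * H i e = 0) :
    ∑ i ∈ A, (if H i d ≠ H i e then (1 : ZMod 2) else 0) = 0 := by
  have k1 := count_ne hH A c d
  have k2 := count_ne hH A c e
  rw [h1, add_zero] at k1
  rw [h2, add_zero] at k2
  have k3 : (∑ i ∈ A, (if H i c ≠ H i d then (1 : ℤ) else 0)) =
      ∑ i ∈ A, (if H i c ≠ H i e then (1 : ℤ) else 0) := by linarith
  have k4 : (∑ i ∈ A, (if H i c ≠ H i d then (1 : ZMod 2) else 0)) =
      ∑ i ∈ A, (if H i c ≠ H i e then (1 : ZMod 2) else 0) := by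
    have := congrArg (Int.cast : ℤ → ZMod 2) k3
    push_cast at this
    simpa using this
  have k5 : ∑ i ∈ A, ((if H i d ≠ H i e then (1 : ZMod 2) else 0) +
      (if H i c ≠ H i e then 1 else 0) + (if H i c ≠ H i d then 1 else 0)) = 0 :=
    sum_eq_zero fun i _ => tri_mod hH c d e i
  rw [sum_add_distrib, sum_add_distrib, k4, add_assoc, CharTwo.add_self_eq_zero, add_zero] at k5
  exact k5

theorem L_rect {n : ℕ} {H : Matrix (Fin n) (Fin n) ℤ} (hH : H.IsHadamard) (c d e : Fin n)
    {T : Finset (Fin n × Fin n)} (hT : IsRectTrade H T) : L H c d e T = 0 := by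
  obtain ⟨hT1, A, B, rfl⟩ := hT
  have hL : L H c d e (A ×ˢ B) =
      (if c ∈ B then ∑ i ∈ A, (if H i d ≠ H i e then (1 : ZMod 2) else 0) else 0) +
      (if d ∈ B then ∑ i ∈ A, (if H i c ≠ H i e then (1 : ZMod 2) else 0) else 0) +
      (if e ∈ B then ∑ i ∈ A, (if H i c ≠ H i d then (1 : ZMod 2) else 0) else 0) := by
    unfold L
    rw [sum_add_distrib, sum_add_distrib]
    have key : ∀ (x : Fin n) (P : Fin n → Prop) [DecidablePred P],
        ∑ i, (if (i, x) ∈ A ×ˢ B ∧ P i then (1 : ZMod 2) else 0) =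
        if x ∈ B then ∑ i ∈ A, (if P i then (1 : ZMod 2) else 0) else 0 := by
      intro x P _
      by_cases hx : x ∈ B
      · simp only [mem_product, hx, and_true, if_true]
        rw [← sum_filter_add_sum_filter_not univ (fun i => i ∈ A)]
        rw [sum_congr rfl (g := fun i => if P i then (1 : ZMod 2) else 0)
          (fun i hi => by simp [(mem_filter.mp hi).2])]
        rw [sum_eq_zero (s := univ.filter (fun i => i ∉ A))
          (fun i hi => by simp [(mem_filter.mp hi).2]), add_zero]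
        congr 1
        ext i; simp
      · simp [hx]
    rw [key c (fun i => H i d ≠ H i e), key d (fun i => H i c ≠ H i e),
      key e (fun i => H i c ≠ H i d)]
  rw [hL]
  have tri : (∑ i ∈ A, (if H i d ≠ H i e then (1 : ZMod 2) else 0)) +
      (∑ i ∈ A, (if H i c ≠ H i e then (1 : ZMod 2) else 0)) +
      (∑ i ∈ A, (if H i c ≠ H i d then (1 : ZMod 2) else 0)) = 0 := by
    rw [← sum_add_distrib, ← sum_add_distrib]
    exact sum_eq_zero fun i _ => tri_mod hH c d e i
  -- symmetry of the separation sums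
  have comm : ∀ x y : Fin n, ∑ i ∈ A, H i x * H i y = ∑ i ∈ A, H i y * H i x := by
    intro x y; exact sum_congr rfl fun i _ => mul_comm _ _
  by_cases hc : c ∈ B <;> by_cases hd : d ∈ B <;> by_cases he : e ∈ B
  · simpa [hc, hd, he] using tri
  · -- e separated from c, d: sum over (c,d) vanishes
    have z := sep_zero hH A e c d ((comm e c).trans (rect_orth hH hT1 hc he))
      ((comm e d).trans (rect_orth hH hT1 hd he))
    simp only [hc, hd, he, if_true, if_false, add_zero]
    rw [z, add_zero] at tri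
    exact tri
  · have z := sep_zero hH A d c e ((comm d c).trans (rect_orth hH hT1 hc hd))
      ((comm d e).trans (rect_orth hH hT1 he hd))
    simp only [hc, hd, he, if_true, if_false, add_zero]
    rw [z, add_zero] at tri
    exact tri
  · have z := sep_zero hH A c d e (rect_orth hH hT1 hc hd) (rect_orth hH hT1 hc he)
    simp only [hc, hd, he, if_true, if_false, add_zero]
    exact z
  · have z := sep_zero hH A c d e ((comm c d).trans (rect_orth hH hT1 hd hc))
      ((comm c e).trans (rect_orth hH hT1 he hc))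
    simp only [hc, hd, he, if_true, if_false, zero_add]
    rw [z, zero_add] at tri
    exact tri
  · have z := sep_zero hH A d c e (rect_orth hH hT1 hd hc) (rect_orth hH hT1 hd he)
    simp only [hc, hd, he, if_true, if_false, add_zero, zero_add]
    exact z
  · have z := sep_zero hH A e c d (rect_orth hH hT1 he hc) (rect_orth hH hT1 he hd)
    simp only [hc, hd, he, if_true, if_false, add_zero, zero_add]
    exact z
  · simp [hc, hd, he]

/-- All sign patterns occur on three distinct rows. -/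
theorem exists_pattern {n : ℕ} {H : Matrix (Fin n) (Fin n) ℤ} (hH : H.IsHadamard)
    {r0 r1 r2 : Fin n} (h01 : r0 ≠ r1) (h02 : r0 ≠ r2) (h12 : r1 ≠ r2) (s t : ℤ)
    (hs : s = 1 ∨ s = -1) (ht : t = 1 ∨ t = -1) :
    ∃ j, H r1 j = s * H r0 j ∧ H r2 j = t * H r0 j := by
  by_contra hcon
  push Not at hcon
  have hz : ∀ j, (1 + s * (H r0 j * H r1 j)) * (1 + t * (H r0 j * H r2 j)) = 0 := by
    intro j
    by_cases h1 : H r1 j = s * H r0 j
    · have h2 := hcon j h1
      rcases pm hH r0 j with h | h <;> rcases pm hH r2 j with h' | h' <;>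
        rcases ht with rfl | rfl <;> simp [h, h'] at h2 ⊢
    · rcases pm hH r0 j with h | h <;> rcases pm hH r1 j with h' | h' <;>
        rcases hs with rfl | rfl <;> simp [h, h'] at h1 ⊢
  have hexp : ∀ j, (1 + s * (H r0 j * H r1 j)) * (1 + t * (H r0 j * H r2 j)) =
      1 + s * (H r0 j * H r1 j) + t * (H r0 j * H r2 j) + s * t * (H r1 j * H r2 j) := by
    intro j
    rcases pm hH r0 j with h | h <;> rw [h] <;> ring
  have hsum : ∑ j, (1 + s * (H r0 j * H r1 j)) * (1 + t * (H r0 j * H r2 j)) = (n : ℤ) := by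
    simp_rw [hexp]
    rw [sum_add_distrib, sum_add_distrib, sum_add_distrib, ← mul_sum, ← mul_sum, ← mul_sum,
      row_orth hH h01, row_orth hH h02, row_orth hH h12]
    simp
  rw [sum_eq_zero (fun j _ => hz j)] at hsum
  have hn : 0 < n := lt_of_le_of_lt (Nat.zero_le _) r0.isLt
  omega

/-- For `n ≥ 3` the trade obtained by cyclically permuting three rows is not a combination of
rectangular trades. -/
theorem exists_bad {n : ℕ} (hn : 3 ≤ n) {H : Matrix (Fin n) (Fin n) ℤ} (hH : H.IsHadamard) :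
    ∃ T, IsTrade H T ∧ ¬ IsRectCombination H T := by
  obtain ⟨r0, hr0⟩ : ∃ r : Fin n, r = ⟨0, by omega⟩ := ⟨_, rfl⟩
  obtain ⟨r1, hr1⟩ : ∃ r : Fin n, r = ⟨1, by omega⟩ := ⟨_, rfl⟩
  obtain ⟨r2, hr2⟩ : ∃ r : Fin n, r = ⟨2, by omega⟩ := ⟨_, rfl⟩
  have h01 : r0 ≠ r1 := by rw [hr0, hr1]; simp [Fin.ext_iff]
  have h02 : r0 ≠ r2 := by rw [hr0, hr2]; simp [Fin.ext_iff]
  have h12 : r1 ≠ r2 := by rw [hr1, hr2]; simp [Fin.ext_iff]
  clear hr0 hr1 hr2
  obtain ⟨c, hc1, hc2⟩ := exists_pattern hH h01 h02 h12 1 1 (by simp) (by simp)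
  obtain ⟨d, hd1, hd2⟩ := exists_pattern hH h01 h02 h12 (-1) 1 (by simp) (by simp)
  obtain ⟨e, he1, he2⟩ := exists_pattern hH h01 h02 h12 1 (-1) (by simp) (by simp)
  set σ : Equiv.Perm (Fin n) := Equiv.swap r0 r1 * Equiv.swap r1 r2 with hσ
  have s0 : σ r0 = r1 := by
    rw [hσ, Equiv.Perm.mul_apply, Equiv.swap_apply_of_ne_of_ne h01 h02, Equiv.swap_apply_left]
  have s1 : σ r1 = r2 := by
    rw [hσ, Equiv.Perm.mul_apply, Equiv.swap_apply_left,
      Equiv.swap_apply_of_ne_of_ne h02.symm h12.symm]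
  have s2 : σ r2 = r0 := by
    rw [hσ, Equiv.Perm.mul_apply, Equiv.swap_apply_right, Equiv.swap_apply_right]
  have s3 : ∀ i, i ≠ r0 → i ≠ r1 → i ≠ r2 → σ i = i := by
    intro i h0 h1 h2
    rw [hσ, Equiv.Perm.mul_apply, Equiv.swap_apply_of_ne_of_ne h1 h2,
      Equiv.swap_apply_of_ne_of_ne h0 h1]
  refine ⟨univ.filter (fun x => H (σ x.1) x.2 ≠ H x.1 x.2), ?_, ?_⟩
  · refine ⟨H.submatrix σ (Equiv.refl _), ?_, ?_, ?_⟩
    · exact (Matrix.isHadamard_submatrix_equiv_iff σ (Equiv.refl _)).mpr hH
    · intro h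
      have := congrFun (congrFun h r0) d
      simp only [Matrix.submatrix_apply, s0, Equiv.refl_apply] at this
      rw [hd1] at this
      rcases pm hH r0 d with h | h <;> rw [h] at this <;> norm_num at this
    · intro i j
      simp
  · rintro ⟨l, hl, hT⟩
    have hzero : L H c d e (univ.filter (fun x => H (σ x.1) x.2 ≠ H x.1 x.2)) = 0 := by
      rw [hT]
      exact L_foldr H c d e l (fun R hR => L_rect hH c d e (hl R hR))
    have hsub : L H c d e (univ.filter (fun x => H (σ x.1) x.2 ≠ H x.1 x.2)) =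
        ∑ i ∈ ({r0, r1, r2} : Finset (Fin n)),
        ((if H (σ i) c ≠ H i c ∧ H i d ≠ H i e then 1 else 0) +
        (if H (σ i) d ≠ H i d ∧ H i c ≠ H i e then 1 else 0) +
        (if H (σ i) e ≠ H i e ∧ H i c ≠ H i d then 1 else 0)) := by
      unfold L
      symm
      rw [sum_subset (subset_univ _)]
      · refine sum_congr rfl fun i _ => ?_
        simp
      · intro i _ hi
        simp only [mem_insert, mem_singleton, not_or] at hi
        rw [s3 i hi.1 hi.2.1 hi.2.2]
        simp
    rw [hsub, sum_insert (by simp [h01, h02]), sum_insert (by simp [h12]), sum_singleton,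
      s0, s1, s2, hc1, hc2, hd1, hd2, he1, he2] at hzero
    rcases pm hH r0 c with h | h <;> rcases pm hH r0 d with h' | h' <;>
      rcases pm hH r0 e with h'' | h'' <;> rw [h, h', h''] at hzero <;>
      revert hzero <;> decide

theorem comb_empty {n : ℕ} (H : Matrix (Fin n) (Fin n) ℤ) : IsRectCombination H ∅ :=
  ⟨[], by simp, rfl⟩

theorem comb_cons {n : ℕ} {H : Matrix (Fin n) (Fin n) ℤ} {R T : Finset (Fin n × Fin n)}
    (hR : IsRectTrade H R) (hT : IsRectCombination H T) :
    IsRectCombination H (symmDiff R T) := by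
  obtain ⟨l, hl, rfl⟩ := hT
  refine ⟨R :: l, ?_, rfl⟩
  intro R' hR'
  rcases List.mem_cons.mp hR' with rfl | h
  · exact hR
  · exact hl _ h

theorem had_one {H : Matrix (Fin 1) (Fin 1) ℤ} (h : H 0 0 = 1 ∨ H 0 0 = -1) :
    H.IsHadamard := by
  refine ⟨fun i j => ?_, ?_, ?_⟩
  · rw [Unitary.mem_iff_eq_one_or_eq_neg_one]
    fin_cases i; fin_cases j; exact h
  · ext i j
    fin_cases i; fin_cases j
    rcases h with h | h <;> simp [Matrix.mul_apply, h]
  · ext i j
    fin_cases i; fin_cases j
    rcases h with h | h <;> simp [Matrix.mul_apply, h]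

theorem had_two {H : Matrix (Fin 2) (Fin 2) ℤ} (h : ∀ i j, H i j = 1 ∨ H i j = -1)
    (h' : H 0 0 * H 0 1 * H 1 0 * H 1 1 = -1) : H.IsHadamard := by
  have h00 := h 0 0
  have h01 := h 0 1
  have h10 := h 1 0
  have h11 := h 1 1
  refine ⟨fun i j => ?_, ?_, ?_⟩
  · rw [Unitary.mem_iff_eq_one_or_eq_neg_one]
    exact h i j
  · ext i j
    rcases h00 with a | a <;> rcases h01 with b | b <;> rcases h10 with c | c <;>
      rcases h11 with d | d <;> fin_cases i <;> fin_cases j <;>
      simp [Matrix.mul_apply, a, b, c, d] at h' ⊢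
  · ext i j
    rcases h00 with a | a <;> rcases h01 with b | b <;> rcases h10 with c | c <;>
      rcases h11 with d | d <;> fin_cases i <;> fin_cases j <;>
      simp [Matrix.mul_apply, a, b, c, d] at h' ⊢

theorem had_two_prod {H : Matrix (Fin 2) (Fin 2) ℤ} (hH : H.IsHadamard) :
    H 0 0 * H 0 1 * H 1 0 * H 1 1 = -1 := by
  have h := row_orth hH (c := 0) (d := 1) (by decide)
  rw [Fin.sum_univ_two] at h
  rcases pm hH 0 0 with a | a <;> rcases pm hH 0 1 with b | b <;>
    rcases pm hH 1 0 with c | c <;> rcases pm hH 1 1 with d | d <;>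
    simp [a, b, c, d] at h ⊢

/-- the sign of a position with respect to a set -/
def sg (T : Finset (Fin 2 × Fin 2)) (x : Fin 2 × Fin 2) : ℤ := if x ∈ T then -1 else 1

theorem trade_two {H : Matrix (Fin 2) (Fin 2) ℤ} (hH : H.IsHadamard)
    (T : Finset (Fin 2 × Fin 2)) (hT : T ≠ ∅)
    (hs : sg T (0, 0) * sg T (0, 1) * sg T (1, 0) * sg T (1, 1) = 1) : IsTrade H T := by
  have hp := had_two_prod hH
  refine ⟨fun i j => sg T (i, j) * H i j, had_two ?_ ?_, ?_, ?_⟩
  · intro i j
    unfold sg
    rcases pm hH i j with h | h <;> by_cases hm : (i, j) ∈ T <;> simp [h, hm]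
  · calc sg T (0, 0) * H 0 0 * (sg T (0, 1) * H 0 1) * (sg T (1, 0) * H 1 0) *
        (sg T (1, 1) * H 1 1) = (sg T (0, 0) * sg T (0, 1) * sg T (1, 0) * sg T (1, 1)) *
        (H 0 0 * H 0 1 * H 1 0 * H 1 1) := by ring
      _ = -1 := by rw [hs, hp]; ring
  · intro h
    obtain ⟨⟨i, j⟩, hij⟩ := Finset.nonempty_iff_ne_empty.mpr hT
    have := congrFun (congrFun h i) j
    simp only [sg, hij, if_true] at this
    rcases pm hH i j with h | h <;> rw [h] at this <;> norm_num at this
  · intro i j
    unfold sg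
    rcases pm hH i j with h | h <;> by_cases hm : (i, j) ∈ T <;> simp [h, hm]

/-- Every trade in a Hadamard matrix `H` of order `n` is a symmetric difference
of finitely many rectangular trades in `H` if and only if `n ≤ 2`. -/
theorem dichotomy (n : ℕ) (H : Matrix (Fin n) (Fin n) ℤ) (hH : H.IsHadamard) :
    (∀ T, IsTrade H T → IsRectCombination H T) ↔ n ≤ 2 := by
  constructor
  · intro h
    by_contra hn
    obtain ⟨T, hT, hT'⟩ := exists_bad (by omega : 3 ≤ n) hH
    exact hT' (h T hT)
  · intro hn T hT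
    obtain ⟨H', hH', hne, hdiff⟩ := hT
    interval_cases n
    · exact absurd (Subsingleton.elim H' H) hne
    · have hmem : (0, 0) ∈ T := by
        by_contra hmem
        apply hne
        ext i j
        fin_cases i; fin_cases j
        by_contra h
        exact hmem ((hdiff 0 0).mpr h)
      have hTe : T = (univ : Finset (Fin 1)) ×ˢ (univ : Finset (Fin 1)) := by
        ext ⟨i, j⟩
        fin_cases i; fin_cases j
        simpa using hmem
      have hR : IsRectTrade H T := ⟨⟨H', hH', hne, hdiff⟩, _, _, hTe⟩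
      have := comb_cons hR (comb_empty H)
      rwa [← Finset.bot_eq_empty, symmDiff_bot] at this
    · have e : ∀ i j, H' i j = sg T (i, j) * H i j := by
        intro i j
        unfold sg
        have := hdiff i j
        rcases pm hH i j with h | h <;> rcases pm hH' i j with h' | h' <;>
          by_cases hm : (i, j) ∈ T <;> simp_all
      have p1 := had_two_prod hH
      have p2 := had_two_prod hH'
      rw [e, e, e, e] at p2
      have p3 : sg T (0, 0) * sg T (0, 1) * sg T (1, 0) * sg T (1, 1) = 1 := by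
        have : (sg T (0, 0) * sg T (0, 1) * sg T (1, 0) * sg T (1, 1)) *
            (H 0 0 * H 0 1 * H 1 0 * H 1 1) = -1 := by rw [← p2]; ring
        rw [p1] at this
        linarith
      have key : ∀ T : Finset (Fin 2 × Fin 2),
          sg T (0, 0) * sg T (0, 1) * sg T (1, 0) * sg T (1, 1) = 1 →
          ∃ a b c : Bool, T = symmDiff (if a then ({0} : Finset (Fin 2)) ×ˢ univ else ∅)
            (symmDiff (if b then ({1} : Finset (Fin 2)) ×ˢ univ else ∅)
            (symmDiff (if c then univ ×ˢ ({0} : Finset (Fin 2)) else ∅) ∅)) := by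
        decide
      have R0 : IsRectTrade H (({0} : Finset (Fin 2)) ×ˢ univ) :=
        ⟨trade_two hH _ (by decide) (by decide), _, _, rfl⟩
      have R1 : IsRectTrade H (({1} : Finset (Fin 2)) ×ˢ univ) :=
        ⟨trade_two hH _ (by decide) (by decide), _, _, rfl⟩
      have C0 : IsRectTrade H (univ ×ˢ ({0} : Finset (Fin 2))) :=
        ⟨trade_two hH _ (by decide) (by decide), _, _, rfl⟩
      obtain ⟨a, b, c, rfl⟩ := key T p3
      have aux : ∀ (x : Bool) (R S : Finset (Fin 2 × Fin 2)), IsRectTrade H R →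
          IsRectCombination H S → IsRectCombination H (symmDiff (if x then R else ∅) S) := by
        intro x R S hR hS
        cases x
        · have : symmDiff (∅ : Finset (Fin 2 × Fin 2)) S = S := by
            rw [← Finset.bot_eq_empty, bot_symmDiff]
          simpa [this] using hS
        · simpa using comb_cons hR hS
      exact aux a _ _ R0 (aux b _ _ R1 (aux c _ _ C0 (comb_empty H)))

theorem had_four : (!![1, 1, 1, 1; 1, -1, 1, -1; 1, 1, -1, -1; 1, -1, -1, 1] :
    Matrix (Fin 4) (Fin 4) ℤ).IsHadamard := by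
  rw [Matrix.isHadamard_iff]
  refine ⟨?_, ?_, ?_⟩
  · intro i j
    rw [Unitary.mem_iff_eq_one_or_eq_neg_one]
    fin_cases i <;> fin_cases j <;> simp
  · ext i j
    fin_cases i <;> fin_cases j <;> simp [Matrix.mul_apply, Fin.sum_univ_four]
  · ext i j
    fin_cases i <;> fin_cases j <;> simp [Matrix.mul_apply, Fin.sum_univ_four]

/-- **Full answer.** Every trade in a Hadamard matrix `H` of order `n` is a symmetric difference
of finitely many rectangular trades in `H` if and only if `n ≤ 2`. In particular there are a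
Hadamard matrix (of order `4`) and a trade in it which is not a symmetric difference of rectangular
trades. -/
theorem result :
    (∀ (n : ℕ) (H : Matrix (Fin n) (Fin n) ℤ), H.IsHadamard →
      ((∀ T, IsTrade H T → IsRectCombination H T) ↔ n ≤ 2)) ∧
    ∃ (H : Matrix (Fin 4) (Fin 4) ℤ) (T : Finset (Fin 4 × Fin 4)),
      H.IsHadamard ∧ IsTrade H T ∧ ¬ IsRectCombination H T := by
  refine ⟨dichotomy, ?_⟩
  have h := (dichotomy 4 _ had_four).not.mpr (by norm_num)
  push Not at h
  obtain ⟨T, h1, h2⟩ := h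
  exact ⟨_, T, had_four, h1, h2⟩

end Pool.Agent.Results.MP_78a590_co.RectTrades
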